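import Pool.Agent.U233.AH.Hdg

/-!
# Classes of Hodge classes and towers
-/

set_option autoImplicit false
set_option linter.unusedSectionVars false

open CategoryTheory AlgebraicGeometry TensorProduct

universe u

namespace Pool.Agent.U233.AH

open Module Pool.Agent.N179 Pool.Agent.N179.DB Pool.Agent.N179.GR.S
open Pool.Agent.N179.GR (Der InDer SemiS algR full Spl slice_mem inv_le tate_step tate_snd)
open Pool.Agent.H914 Pool.Agent.H914.VarClass Pool.Agent.H914.VarClass.Obj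
  Pool.Agent.H914.WeilCohomology Pool.Agent.TH125.Gal Pool.Agent.W552 Pool.Agent.H281R3.HT
open Pool.Agent.U233.HG.St (Theory coho prd)
open Pool.Agent.U233.PW Pool.Agent.U233.HG
open Pool.Agent.N179.DB.S (Cx tens bc bc_tens)

noncomputable section

variable {k : Type u} [Field k] {𝒱 : VarClass k} {ops : CycleOps 𝒱} (T : Theory ops)

/-- A class of cohomology classes which contains the algebraic classes and is compatible with
products and projections. -/
structure Closed (G : ∀ X : 𝒱.Obj, ℕ → Set (T.W.H X)) : Prop where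
  cy : ∀ X j, cy T X j ⊆ G X j
  span : ∀ X j, ∀ c ∈ Submodule.span T.W.K (G X j), c ∈ G X j
  mul : ∀ (P Y : 𝒱.Obj) i j, ∀ a ∈ G P i, ∀ b ∈ G Y j,
    T.W.map (fst P Y) a * T.W.map (snd P Y) b ∈ G (P.prod Y) (i + j)
  fst : ∀ (P Y : 𝒱.Obj) j, ∀ a ∈ hd T P j, T.W.map (fst P Y) a ∈ G (P.prod Y) j → a ∈ G P j
  snd : ∀ (P Y : 𝒱.Obj) j, ∀ a ∈ hd T Y j, T.W.map (snd P Y) a ∈ G (P.prod Y) j → a ∈ G Y j

/-- all Hodge classes on `X` belong to the class -/
def AllIn (G : ∀ X : 𝒱.Obj, ℕ → Set (T.W.H X)) (X : 𝒱.Obj) : Prop := ∀ j, hd T X j ⊆ G X j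

variable {T} {G : ∀ X : 𝒱.Obj, ℕ → Set (T.W.H X)}

theorem Closed.prods (hG : Closed T G) {P Y : 𝒱.Obj} {A : ℕ → Set (T.W.H P)}
    {B : ℕ → Set (T.W.H Y)} (hA : ∀ i, A i ⊆ G P i) (hB : ∀ i, B i ⊆ G Y i) (h : GKun T A B) :
    AllIn T G (P.prod Y) := by
  intro j c hc
  refine hG.span _ _ _ ((Submodule.span_mono ?_) (h j c hc))
  rintro _ ⟨i, j', rfl, a, ha, b, hb, rfl⟩
  exact hG.mul P Y i j' a (hA i ha) b (hB j' hb)

theorem hd_map {X Y : 𝒱.Obj} (f : X ⟶ Y) {j : ℕ} {c : T.W.H Y} (hc : c ∈ hd T Y j) :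
    T.W.map f c ∈ hd T X j := by
  refine ⟨T.W.map_mem _ hc.1, ?_⟩
  have h1 : bc (T.W.map f).toLinearMap (tens 1 c) ∈ pqC T X j j := T.map X Y f j j _ hc.2
  rw [bc_tens] at h1
  exact h1

variable {ι : Type} {V : ι → HS T.W.K}

/-- **The theorem on towers.** -/
theorem good_list (hG : Closed T G) (hV : ∀ i, Fulls T (V i))
    (hF : FG.Fam (fun i => repW T (V i))) {m : ℕ}
    {U : Fin m → HS T.W.K} {Z : 𝒱.Obj} (hZ : GeneratedBy T U Z) : ∀ L : List (ι × 𝒱.Obj),
    (L.map Prod.fst).Nodup → (∀ x ∈ L, Fac T (V x.1) x.2 ∧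
      ∀ a, x.1 ∉ Exc (fun i => repW T (V i)) (repW T (U a))) →
    (AllIn T G (prd L Z) ↔ AllIn T G Z ∧ ∀ x ∈ L, PowH T (V x.1) x.2 ∨ AllIn T G x.2)
  | [], _, _ => ⟨fun h => ⟨h, by simp⟩, fun h => h.1⟩
  | (i, P) :: L, hnd, hL => by
    rw [List.map_cons, List.nodup_cons] at hnd
    have ih := good_list hG hV hF hZ L hnd.2 fun x hx => hL x (List.mem_cons_of_mem _ hx)
    obtain ⟨hP, hi⟩ := hL (i, P) List.mem_cons_self
    have hL' : ∀ x ∈ L, Fac T (V x.1) x.2 ∧ x.1 ≠ i := fun x hx =>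
      ⟨(hL x (List.mem_cons_of_mem _ hx)).1, fun h => hnd.1 (List.mem_map.2 ⟨x, hx, h⟩)⟩
    have hspl := spl_list T hV hF hZ L (i := i) hL' hi
    change AllIn T G (P.prod (prd L Z)) ↔ _
    constructor
    · intro h
      have h1 : AllIn T G (prd L Z) := fun j a ha =>
        hG.snd P (prd L Z) j a ha (h j (hd_map _ ha))
      have h2 : AllIn T G P := fun j a ha => hG.fst P (prd L Z) j a ha (h j (hd_map _ ha))
      obtain ⟨h3, h4⟩ := ih.1 h1
      refine ⟨h3, fun x hx => ?_⟩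
      rcases List.mem_cons.1 hx with rfl | hx
      · exact Or.inr h2
      · exact h4 x hx
    · rintro ⟨h3, h4⟩
      have h1 : AllIn T G (prd L Z) := ih.2 ⟨h3, fun x hx => h4 x (List.mem_cons_of_mem _ hx)⟩
      have hpow : PowH T (V i) P → AllIn T G (P.prod (prd L Z)) := by
        rintro ⟨X, n, hX, hn, rfl⟩
        exact hG.prods (fun i => hG.cy _ i) h1 (gkun_pow T (hV i) hX hn hspl)
      rcases h4 (i, P) List.mem_cons_self with hpw | hP2
      · exact hpow hpw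
      · rcases hP with hP | hP
        · exact hG.prods hP2 h1 (gkun_of T (kun_list T hV hF hZ L hP hL' hi))
        · exact hpow hP

end

end Pool.Agent.U233.AH
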