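import Pool.Agent.U233.AH.Def
import Pool.Agent.U233.AH.Lst

/-!
# The comparison of two Hodge theories
-/

set_option autoImplicit false
set_option linter.unusedSectionVars false

open CategoryTheory AlgebraicGeometry TensorProduct

universe u

namespace Pool.Agent.U233.AH

open Module Pool.Agent.N179 Pool.Agent.N179.DB Pool.Agent.N179.GR.S
open Pool.Agent.H914 Pool.Agent.H914.VarClass Pool.Agent.H914.VarClass.Obj
  Pool.Agent.H914.WeilCohomology Pool.Agent.TH125.Gal Pool.Agent.W552 Pool.Agent.H281R3.HT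
open Pool.Agent.U233.HG.St (Theory coho prd cohF Etale)
open Pool.Agent.U233.PW Pool.Agent.U233.HG
open Pool.Agent.N179.DB.S (Cx tens bc bc_tens tens_add tens_smul smul_tens gr' gr'_eq mem_of_base)
open Pool.Agent.N179.GR (ctr2 ctr2_apply)
open Pool.Agent.Y133.Per (Base baseMap baseTr tm base_ind baseTr_tm)

noncomputable section

variable {k : Type u} [Field k] {𝒱 : VarClass k} {ops : CycleOps 𝒱}

section weil

variable {W : WeilCohomology.{u, 0} ops}

theorem exists_dual {P : 𝒱.Obj} (h : (1 : W.H P) ≠ 0) : ∃ φ : W.H P →ₗ[W.K] W.K, φ 1 ≠ 0 := by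
  by_contra hcon
  push Not at hcon
  exact h ((Module.forall_dual_apply_eq_zero_iff W.K _).1 hcon)

theorem snd_inj {P Y : 𝒱.Obj} (h : (1 : W.H P) ≠ 0) :
    Function.Injective (W.map (snd P Y)) := by
  obtain ⟨φ, hφ⟩ := exists_dual h
  rw [injective_iff_map_eq_zero]
  intro c hc
  have h1 := ctr_apply φ (1 : W.H P) c
  rw [hc, mul_zero, map_zero] at h1
  exact (smul_eq_zero.1 h1.symm).resolve_left hφ

theorem fst_inj {P Y : 𝒱.Obj} (h : (1 : W.H Y) ≠ 0) :
    Function.Injective (W.map (fst P Y)) := by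
  obtain ⟨φ, hφ⟩ := exists_dual h
  rw [injective_iff_map_eq_zero]
  intro c hc
  have h1 := ctr2_apply φ c (1 : W.H Y)
  rw [hc, zero_mul, map_zero] at h1
  exact (smul_eq_zero.1 h1.symm).resolve_left hφ

theorem map_proj {X Y : 𝒱.Obj} (f : X ⟶ Y) (i : ℕ) (a : W.H Y) :
    proj (W.isInternal X) i (W.map f a) = W.map f (proj (W.isInternal Y) i a) := by
  refine gr_induction (W.isInternal Y) (p := fun a => proj (W.isInternal X) i (W.map f a) =
    W.map f (proj (W.isInternal Y) i a)) ?_ ?_ a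
  · intro j a ha
    by_cases hij : j = i
    · subst hij
      rw [proj_same _ ha, proj_same _ (W.map_mem f ha)]
    · rw [proj_ne _ ha hij, proj_ne _ (W.map_mem f ha) hij, map_zero]
  · intro a b ha hb
    rw [map_add, map_add, map_add, map_add, ha, hb]

theorem gr_of_map {X Y : 𝒱.Obj} {f : X ⟶ Y} (hf : Function.Injective (W.map f)) {i : ℕ}
    {a : W.H Y} (h : W.map f a ∈ W.gr X i) : a ∈ W.gr Y i := by
  have h1 := map_proj f i a
  rw [proj_same _ h] at h1
  rw [hf h1]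
  exact proj_mem _ _ _

end weil

variable (T : Theory ops)

/-- the Hodge classes as a subspace -/
def hdS (X : 𝒱.Obj) (j : ℕ) : Submodule T.W.K (T.W.H X) where
  carrier := hd T X j
  zero_mem' := by
    refine ⟨Submodule.zero_mem _, ?_⟩
    have h1 : (tens 1 (0 : T.W.H X) : Cx T.W.K (T.W.H X)) = 0 := TensorProduct.tmul_zero _ _
    rw [h1]
    exact Submodule.zero_mem _
  add_mem' {a b} ha hb := by
    refine ⟨Submodule.add_mem _ ha.1 hb.1, ?_⟩
    rw [tens_add]
    exact Submodule.add_mem _ ha.2 hb.2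
  smul_mem' r a ha := by
    refine ⟨Submodule.smul_mem _ _ ha.1, ?_⟩
    have h1 : (tens 1 (r • a) : Cx T.W.K (T.W.H X)) = (algebraMap T.W.K ℂ r) • tens 1 a := by
      rw [smul_tens]
      exact tens_smul r a 1
    rw [h1]
    exact Submodule.smul_mem _ _ ha.2

theorem hd_mul {X : 𝒱.Obj} {i j : ℕ} {a b : T.W.H X} (ha : a ∈ hd T X i) (hb : b ∈ hd T X j) :
    a * b ∈ hd T X (i + j) := by
  refine ⟨?_, ?_⟩
  · rw [mul_add]
    exact T.W.mul_mem ha.1 hb.1
  · have h1 := T.mul X i i j j _ _ ha.2 hb.2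
    have h2 : HG.St.mulC (K := T.W.K) (A := T.W.H X) (tens 1 a) (tens 1 b) = tens 1 (a * b) := by
      change (1 : ℂ) ⊗ₜ[T.W.K] a * (1 : ℂ) ⊗ₜ[T.W.K] b = (1 : ℂ) ⊗ₜ[T.W.K] (a * b)
      rw [Algebra.TensorProduct.tmul_mul_tmul, one_mul]
    rw [h2] at h1
    push_cast
    exact h1

theorem cy_hd {X : 𝒱.Obj} {j : ℕ} {a : T.W.H X} (ha : a ∈ cy T X j) : a ∈ hd T X j := by
  refine ⟨?_, T.cyc X j _ ha⟩
  obtain ⟨z, hz, rfl⟩ := ha
  exact T.W.cl_mem hz

/-- strictness -/
theorem hd_of_map {X Y : 𝒱.Obj} {f : X ⟶ Y} (hf : Function.Injective (T.W.map f))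
    (hf' : Function.Injective ((baseW T.W ℂ).map f)) {j : ℕ} {c : T.W.H Y}
    (hc : T.W.map f c ∈ hd T X j) : c ∈ hd T Y j := by
  have h1 : c ∈ T.W.gr Y (2 * j) := gr_of_map hf hc.1
  have h0 : (tm 1 c : Base T.W.K (T.W.H Y)) ∈ gr' T.W Y (2 * j) := by
    rw [gr'_eq]
    exact Submodule.subset_span ⟨c, h1, rfl⟩
  have h2 := tw_hodge T h0 (Δ := ⊤) inferInstance fun g _ => by
    have h4 := hodge_tw T hc g
    have h5 : (baseW T.W ℂ).map f ((var T Y).act g (tm 1 c : Base T.W.K (T.W.H Y))) =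
        (var T X).act g ((baseW T.W ℂ).map f (tm 1 c : Base T.W.K (T.W.H Y))) :=
      (intertwines T f g (tm 1 c : Base T.W.K (T.W.H Y))).symm
    have h6 : (baseW T.W ℂ).map f (tm 1 c : Base T.W.K (T.W.H Y)) =
        (tm 1 (T.W.map f c) : Base T.W.K (T.W.H X)) := rfl
    apply hf'
    refine h5.trans ?_
    rw [h6]
    refine h4.trans ?_
    rw [← h6]
    exact (map_smul ((baseW T.W ℂ).map f) _ _).symm
  have h3 : c ∈ hdS T Y j := by
    refine mem_of_base _ ?_
    refine (Submodule.span_mono ?_) h2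
    rintro _ ⟨c, hc, rfl⟩
    exact ⟨c, hc, rfl⟩
  exact h3

end

end Pool.Agent.U233.AH
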