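import Pool.Agent.U233.TF.Pow2

/-!
# The Tate classes on products with powers
-/

set_option autoImplicit false
set_option linter.unusedSectionVars false

open CategoryTheory AlgebraicGeometry Finset

universe u

namespace Pool.Agent.U233.AH

open Module Pool.Agent.N179.GR Pool.Agent.U233.FG Pool.Agent.TH125.Gal Pool.Agent.U233.TF
open Pool.Agent.H914 Pool.Agent.H914.VarClass Pool.Agent.H914.VarClass.Obj
  Pool.Agent.H914.WeilCohomology Pool.Agent.H281R3.HT Pool.Agent.W552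

noncomputable section

variable {k : Type u} [Field k] {𝒱 : VarClass k} {ops : CycleOps 𝒱}
  {W : WeilCohomology.{u, 0} ops} {Γ : Type} [Group Γ]

variable {P : Polarized 𝒱} {n : ℕ} {Z : 𝒱.Obj} {χ : Γ →* W.Kˣ}
  {ρ : Γ →* (W.H P.X ≃ₐ[W.K] W.H P.X)} {τ : Γ →* (W.H Z ≃ₐ[W.K] W.H Z)}
  {υ : Γ →* (W.H ((nest ops n fun _ => P).X.prod Z) ≃ₐ[W.K]
    W.H ((nest ops n fun _ => P).X.prod Z))}
  {V : Type} [AddCommGroup V] [Module W.K V] [FiniteDimensional W.K V]
  {r : Γ →* Module.End W.K V} {f : V →ₗ[W.K] W.H P.X}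

/-- the Tate classes of degree `2 j` -/
def Tt (χ : Γ →* W.Kˣ) (Z : 𝒱.Obj) (τ : Γ →* (W.H Z ≃ₐ[W.K] W.H Z)) (j : ℕ) : Set (W.H Z) :=
  {z | z ∈ W.gr Z (2 * j) ∧ ∃ Δ : Subgroup Γ, Δ.FiniteIndex ∧
    ∀ g ∈ Δ, τ g z = (χ g : W.K) ^ j • z}

/-- **The Tate classes on products with powers.** -/
theorem pow_dec (hf : TransF χ P.X ρ r f) (hP : IsPowAct W P n Z ρ τ υ)
    (hall : AllSkew (P := P) ρ τ)
    (hK : Even P.X.dim → n + 1 < Module.finrank W.K (transcendental W P.X)) {j : ℕ}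
    {c : W.H ((nest ops n fun _ => P).X.prod Z)}
    (hcT : c ∈ Tt χ ((nest ops n fun _ => P).X.prod Z) υ j) :
    c ∈ Submodule.span W.K {x | ∃ i j' : ℕ, i + j' = j ∧
      ∃ a ∈ Submodule.span W.K (algClasses W (nest ops n fun _ => P).X i), ∃ z ∈ Tt χ Z τ j',
        x = W.map (fst _ Z) a * W.map (snd _ Z) z} := by
  obtain ⟨hcj, Δ, hΔ, hc⟩ := hcT
  have hG := hf.gal
  have hDX := hf.hen
  have hmid := hf.mid
  obtain ⟨s⟩ := exists_SB hDX
  obtain ⟨b, hb⟩ := exists_monoBasis (ops := ops) P s.e n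
  have h1 := mem_Tgt' (υ := υ) hb hDX hmid hG hP hall hK (c := c)
    ⟨Δ, hΔ, fun g hg => ⟨_, hc g hg⟩⟩
  obtain ⟨N, m, i, φ, hm, hφ, hexp⟩ := exists_expansion s n Z
  obtain ⟨Δ', hΔ', hfix⟩ := exists_fix hG s
  have h2 := hexp c h1
  -- uniqueness
  have huni : ∀ (x : Fin N → W.H Z) (l : Fin N),
      ctr (φ l) (∑ l', W.map (fst _ Z) (m l') * W.map (snd _ Z) (x l')) = x l := by
    intro x l
    rw [map_sum, Finset.sum_eq_single l]
    · rw [ctr_apply, hφ, if_pos rfl, one_smul]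
    · intro l' _ hl
      rw [ctr_apply, hφ, if_neg hl, zero_smul]
    · intro h
      exact absurd (Finset.mem_univ _) h
  set x : Fin N → W.H Z := fun l => ctr (φ l) c with hx
  -- degrees
  have hdeg : ∀ l, x l = if 2 * i l ≤ 2 * j then
      proj (W.isInternal Z) (2 * j - 2 * i l) (x l) else 0 := by
    intro l
    have h3 : c = ∑ l', W.map (fst _ Z) (m l') * W.map (snd _ Z)
        (if 2 * i l' ≤ 2 * j then proj (W.isInternal Z) (2 * j - 2 * i l') (x l') else 0) := by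
      conv_lhs => rw [← proj_same (W.isInternal _) hcj, h2]
      rw [map_sum]
      refine Finset.sum_congr rfl fun l' _ => ?_
      obtain ⟨S, hS⟩ := hm l'
      rw [proj_ext (hS.gr hmid)]
      by_cases h : 2 * i l' ≤ 2 * j
      · rw [if_pos h, if_pos h]
      · rw [if_neg h, if_neg h, map_zero, mul_zero]
    conv_lhs => rw [hx]
    beta_reduce
    rw [h3]
    exact huni _ l
  -- semi-invariance
  have hact : ∀ g ∈ Δ ⊓ Δ', ∀ l, (χ g : W.K) ^ i l • τ g (x l) = (χ g : W.K) ^ j • x l := by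
    intro g hg l
    have h3 : υ g c = ∑ l', W.map (fst _ Z) (m l') * W.map (snd _ Z)
        ((χ g : W.K) ^ i l' • τ g (x l')) := by
      conv_lhs => rw [h2]
      rw [map_sum]
      refine Finset.sum_congr rfl fun l' _ => ?_
      obtain ⟨S, hS⟩ := hm l'
      rw [map_mul, mq_act hmid hG hP (hfix g hg.2) hS, (hP g).2, map_smul, smul_mul_assoc,
        mul_smul_comm]
    have h4 := huni (fun l' => (χ g : W.K) ^ i l' • τ g (x l')) l
    rw [← h3, hc g hg.1, map_smul] at h4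
    exact h4.symm
  rw [h2]
  refine Submodule.sum_mem _ fun l _ => ?_
  obtain ⟨S, hS⟩ := hm l
  by_cases h : 2 * i l ≤ 2 * j
  · have h3 := hdeg l
    rw [if_pos h] at h3
    have h4 : x l ∈ W.gr Z (2 * (j - i l)) := by
      rw [h3, show 2 * (j - i l) = 2 * j - 2 * i l by omega]
      exact proj_mem _ _ _
    refine Submodule.subset_span ⟨i l, j - i l, by omega, m l,
      algSpan_gr (hS.alg hDX hmid) (hS.gr hmid), x l, ⟨h4, Δ ⊓ Δ', inferInstance,
        fun g hg => ?_⟩, rfl⟩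
    have h6 := hact g hg l
    have h7 : (χ g : W.K) ^ j = (χ g : W.K) ^ i l * (χ g : W.K) ^ (j - i l) := by
      rw [← pow_add]
      congr 1
      omega
    rw [h7, mul_smul] at h6
    exact smul_right_injective _ (pow_ne_zero _ (Units.ne_zero (χ g))) h6
  · have h3 := hdeg l
    rw [if_neg h] at h3
    have h5 : W.map (fst (nest ops n fun _ => P).X Z) (m l) * W.map (snd _ Z) (x l) = 0 := by
      rw [h3, map_zero, mul_zero]
    change W.map (fst (nest ops n fun _ => P).X Z) (m l) * W.map (snd _ Z) (x l) ∈ _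
    rw [h5]
    exact Submodule.zero_mem _

end

end Pool.Agent.U233.AH
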