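import Pool.Agent.U233.PW.DefP0

/-!
# Deligne's conjecture on absolutely Hodge classes, full Hodge groups and arbitrary varieties:
definitions
-/

set_option autoImplicit false

open CategoryTheory AlgebraicGeometry TensorProduct

universe u

namespace Pool.Agent.U233.HG.St

open Pool.Agent.H914 Pool.Agent.H914.VarClass Pool.Agent.H914.VarClass.Obj
  Pool.Agent.H914.WeilCohomology

noncomputable section

/-- An algebra over the field `L`. -/
structure LAlg (L : Type) [Field L] where
  /-- the elements -/
  A : Type
  [ring : Ring A]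
  [alg : Algebra L A]

attribute [instance] LAlg.ring LAlg.alg

/-- The value of the homomorphism. -/
def evA {K A B : Type} [Field K] [Ring A] [Algebra K A] [Ring B] [Algebra K B] (f : A →ₐ[K] B)
    (x : A) : B := f x

section LAlg

variable {L : Type} [Field L]

/-- The homomorphisms of algebras. -/
def LAlg.Hom (E F : LAlg L) : Type := E.A →ₐ[L] F.A

/-- The value of a homomorphism. -/
def LAlg.Hom.ev {E F : LAlg L} (f : E.Hom F) (x : E.A) : F.A := evA (show E.A →ₐ[L] F.A from f) x

/-- The multiple `u ^ j x`. -/
def LAlg.tw (E : LAlg L) (u : L) (j : ℕ) (x : E.A) : E.A := u ^ j • x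

variable {K : Type} [Field K] [Algebra K ℂ] {M : HA K} {E : LAlg L}

/-- The ring homomorphisms from the cohomology algebra `M` to the `L`-algebra `E`. -/
def Comp (M : HA K) (E : LAlg L) : Type := M.A →+* E.A

/-- The value of a homomorphism. -/
def Comp.ev (f : Comp M E) (x : M.A) : E.A := (show M.A →+* E.A from f) x

/-- The homomorphism identifies `E` with `M ⊗ L`: the values span `E`, and the values at linearly
independent elements are linearly independent over `L`. -/
def Comp.IsExtension (f : Comp M E) : Prop :=
  Submodule.span L (Set.range f.ev) = ⊤ ∧ ∀ (n : ℕ) (x : Fin n → M.A),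
    LinearIndependent K x → LinearIndependent L fun a => f.ev (x a)

/-- The elements of `E` which are images under `f` of Hodge classes are also images under `f'` of
Hodge classes, up to the factor `u ^ j` in degree `2 j`. -/
def Transfers {K' : Type} [Field K'] [Algebra K' ℂ] {M' : HA K'} (f : Comp M E) (f' : Comp M' E)
    (u : L) : Prop :=
  ∀ j x, (∃ c ∈ M.hodgeDeg j, x = f.ev c) → ∃ c ∈ M'.hodgeDeg j, x = E.tw u j (f'.ev c)

end LAlg

section K

variable {K : Type} [Field K] [Algebra K ℂ]

/-- The structure is polarisable and only of the types `(1, 0)` and `(0, 1)`: for example the first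
cohomology of an abelian variety. -/
structure HS.OfAbelianType (U : HS K) : Prop where
  polarisable : U.Polarisable
  types : ∀ p q : ℤ, U.hodgeNum p q ≠ 0 → (p = 1 ∧ q = 0) ∨ (p = 0 ∧ q = 1)

end K

variable {k : Type u} [Field k] {𝒱 : VarClass k} {ops : CycleOps 𝒱}

/-- The pull-back. -/
def pullW (W : WeilCohomology.{u, 0} ops) {X Y : 𝒱.Obj} (f : X ⟶ Y) (x : W.H Y) : W.H X :=
  evA (W.map f) x

/-- The pull-back. -/
def Theory.pull (T : Theory ops) {X Y : 𝒱.Obj} (f : X ⟶ Y) (x : (cohF T Y).A) : (cohF T X).A :=
  pullW T.W f x

/-- The class of the cycle. -/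
def Theory.cls (T : Theory ops) {X : 𝒱.Obj} (z : X.Cycles) : (cohF T X).A := clsW T.W z

/-- Let `T` and `T'` be the Hodge theories of the varieties over the algebraically closed field `k`
which are given by two embeddings `ρ` and `ρ'` of `k` into the field of complex numbers. This
structure contains the `ℓ`-adic cohomology `B X = H(X, ℚ_ℓ)`, a `ℚ_ℓ`-algebra for every variety `X`
over `k`, with the pull-backs, and the comparison homomorphisms from the rational cohomology of `ρX`
and of `ρ'X` to `H(X, ℚ_ℓ)`. The latter identifies `H(X, ℚ_ℓ)` with `H(ρ'X, ℚ) ⊗ ℚ_ℓ`. The unit `u` is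
the quotient of the generators of `ℚ_ℓ(1)` which are given by `exp(2πi/ℓ^n)` under `ρ'` and `ρ`; with
it the comparison homomorphisms are compatible with the classes of algebraic cycles. -/
structure Etale (T T' : Theory ops) where
  /-- the field `ℚ_ℓ` -/
  L : Type
  [field : Field L]
  char : CharZero L
  /-- the `ℓ`-adic cohomology -/
  B : 𝒱.Obj → LAlg L
  /-- the pull-backs -/
  map : ∀ {X Y : 𝒱.Obj}, (X ⟶ Y) → (B Y).Hom (B X)
  /-- the comparison for the first embedding -/
  i : ∀ X, Comp (cohF T X) (B X)
  /-- the comparison for the second embedding -/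
  i' : ∀ X, Comp (cohF T' X) (B X)
  nat : ∀ (X Y : 𝒱.Obj) (f : X ⟶ Y) a, (i X).ev (T.pull f a) = (map f).ev ((i Y).ev a)
  nat' : ∀ (X Y : 𝒱.Obj) (f : X ⟶ Y) a, (i' X).ev (T'.pull f a) = (map f).ev ((i' Y).ev a)
  ext' : ∀ X, (i' X).IsExtension
  /-- the quotient of the generators of `ℚ_ℓ(1)` -/
  u : L
  ne : u ≠ 0
  cyc : ∀ (X : 𝒱.Obj) j z, X.IsCyc j z → (i X).ev (T.cls z) = (B X).tw u j ((i' X).ev (T'.cls z))

attribute [instance] Etale.field

variable {T T' : Theory ops} (κ : Etale T T')

/-- Deligne's conjecture for `X` and the two embeddings: the classes `x` in `H^(2j)(X, ℚ_ℓ(j))` which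
become Hodge under `ρ`, that is, are images of Hodge classes of `ρX`, become Hodge under `ρ'`. (The
factor `u ^ j` comes from the Tate twist.) -/
def Etale.Deligne (X : 𝒱.Obj) : Prop := Transfers (κ.i X) (κ.i' X) κ.u

/-- Let `P_a` be varieties as in `Factors`. Deligne's conjecture holds for `P_1 × (P_2 × (⋯ × Z))` if
and only if it holds for `Z` and for those `P_a` which are not powers. -/
def Etale.Reduces {ι : Type} (V : ι → HS T.F) (E : Set ι) (Z : 𝒱.Obj) : Prop :=
  ∀ L : List (ι × 𝒱.Obj), Factors T V E L →
    (κ.Deligne (prd L Z) ↔ κ.Deligne Z ∧ ∀ x ∈ L, IsPower T (V x.1) x.2 ∨ κ.Deligne x.2)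

/-- `E U` is the set of the exceptional indices with respect to the Hodge structure `U`.

* `abelian`: if the cohomology of `A` is generated by a structure `U` of abelian type (`A` an abelian
  variety, `U = H^1(A)`), then Deligne's conjecture holds for the products `P_1 × ⋯ × P_n × A`, where
  the `P_a` are powers with respect to `V i_a`, for different indices `i` with `d i ≥ 2` and
  `Big (d i) (V i) (dim U)` (so it is enough that `d i ≥ 3` is odd), if and only if it holds for
  `A`. (By Deligne it holds for abelian varieties.)
* `variety`: for every variety `Z` there are at most `(b - b') / 2` exceptional indices with respect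
  to its cohomology, where `b` is the sum of the Betti numbers and `b'` is the dimension of the part
  with complex multiplication, and for all other indices Deligne's conjecture for the products of `Z`
  with powers is equivalent to the conjecture for `Z`.
* `splits`: the same is true if `H(Z)` is generated by structures `U a` and by the part with complex
  multiplication, without indices in the `E (U a)`.
* `exceptions`: see `Exceptions`. -/
structure DeligneFull {ι : Type} (V : ι → HS T.F) (d : ι → ℕ) (E : HS T.F → Set ι) : Prop where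
  abelian : ∀ (U : HS T.F) (A : 𝒱.Obj), U.OfAbelianType → (cohF T A).GenBy (fun _ : Fin 1 => U) →
    κ.Reduces V {i | ¬(2 ≤ d i ∧ Big (d i) (V i) U.dim)} A
  variety : ∀ Z : 𝒱.Obj, (cohF T Z).Bound (E (cohF T Z).str) ∧
    κ.Reduces V (E (cohF T Z).str) Z
  splits : ∀ (m : ℕ) (U : Fin m → HS T.F) (Z : 𝒱.Obj), (cohF T Z).GenBy U →
    κ.Reduces V (⋃ a, E (U a)) Z
  exceptions : Exceptions V d E

end

end Pool.Agent.U233.HG.St
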