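import Pool.Agent.U233.AH.Kap
import Pool.Agent.U233.PW.ConvP

/-!
# The theorem on Deligne's conjecture
-/

set_option autoImplicit false
set_option linter.unusedSectionVars false

open CategoryTheory AlgebraicGeometry TensorProduct

universe u

namespace Pool.Agent.U233.HG.St

open Module Pool.Agent.N179 Pool.Agent.N179.DB
open Pool.Agent.N179.DB.S (Cx tens gal bc cx_ind)
open Pool.Agent.H914 Pool.Agent.H914.VarClass Pool.Agent.H914.VarClass.Obj
  Pool.Agent.H914.WeilCohomology Pool.Agent.U233.PW Pool.Agent.U233.AH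
open Pool.Agent.N179.GR.S Pool.Agent.W552 Pool.Agent.H281R3.HT Pool.Agent.TH125.Gal

variable {k : Type u} [Field k] {𝒱 : VarClass k} {ops : CycleOps 𝒱} {T : Theory ops}

section fam

variable {ι : Type} {V : ι → HS T.W.K} {d : ι → ℕ} (hV : FullFam V d)

include hV

/-- the theorem for a class of Hodge classes -/
theorem closedS {G : ∀ X : 𝒱.Obj, ℕ → Set (T.W.H X)} (hG : Closed T G) {m : ℕ}
    {U : Fin m → HG.HS T.W.K} {Z : 𝒱.Obj} (hZ : GeneratedBy T U Z) {E : Set ι}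
    (hE : ∀ i, i ∉ E → ∀ a, i ∉ Exc (fun i => rep (toHG (V i))) (rep (U a)))
    {L : List (ι × 𝒱.Obj)} (hL : Factors T V E L) :
    AllIn T G (prd L Z) ↔ AllIn T G Z ∧ ∀ x ∈ L, IsPower T (V x.1) x.2 ∨ AllIn T G x.2 := by
  have h1 := good_list (T := T) (V := fun i => toHG (V i)) hG (fullsS T hV) (famS T hV) hZ L hL.1
    fun x hx => ⟨facS T hV (hL.2 x hx).2, hE _ (hL.2 x hx).1⟩
  refine h1.trans (and_congr Iff.rfl ?_)
  exact forall₂_congr fun x _ => or_congr ⟨of_powH T, powH_of T⟩ Iff.rfl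

theorem reducesS {T' : Theory ops} (κ : Etale T T') {m : ℕ} {U : Fin m → HG.HS T.W.K}
    {Z : 𝒱.Obj} (hZ : GeneratedBy T U Z) {E : Set ι}
    (hE : ∀ i, i ∉ E → ∀ a, i ∉ Exc (fun i => rep (toHG (V i))) (rep (U a))) :
    κ.Reduces V E Z := by
  intro L hL
  have h1 := closedS hV (closed_gd κ) hZ hE hL
  rw [deligne_iff, deligne_iff]
  refine h1.trans (and_congr Iff.rfl ?_)
  exact forall₂_congr fun x _ => or_congr Iff.rfl (deligne_iff κ x.2).symm

end fam

theorem lvl_ab {U : HS T.W.K} (h : U.OfAbelianType) : Lvl (toHG U) 1 := by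
  intro k
  have h1 := h.types _ _ (num_ne (M := U) (e_mem (toHG U) k) (e_ne (toHG U) k))
  omega

theorem wt_ab {U : HS T.W.K} (h : U.OfAbelianType) : Wt (toHG U) := by
  refine wt_of_pure (w := 1) fun k => ?_
  have h1 := h.types _ _ (num_ne (M := U) (e_mem (toHG U) k) (e_ne (toHG U) k))
  omega

/-- **The theorem.** -/
theorem deligne_full {T' : Theory ops} (κ : Etale T T') {ι : Type} {V : ι → HS T.W.K}
    {d : ι → ℕ} (hV : FullFam V d) :
    ∃ E : HS T.W.K → Set ι, DeligneFull κ V d E := by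
  have hK := charK T.W.K
  have hE := splitFam T (famS T hV)
  refine ⟨fun U => Exc (fun i => rep (toHG (V i))) (rep (toHG U)),
    fun U A hU hA => ?_, fun Z => ⟨⟨hE.finite _, hE.variety Z⟩,
      reducesS hV κ (gen_self T Z) fun i hi _ => hi⟩, fun m U Z hZ =>
      reducesS hV κ (gen_of T hZ) fun i hi a ha => hi (Set.mem_iUnion.2 ⟨a, ha⟩),
    ⟨⟨fun U => hE.finite _, fun U => hE.card (toHG U), fun i => hE.self i⟩,
      fun U i hU hi => ?_, fun U i hU hi => ?_, fun U i hU hi => ?_⟩⟩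
  · refine reducesS hV κ (gen_of T hA) fun i hi _ hi' => hi fun hdb => ?_
    obtain ⟨hd, hb⟩ := hdb
    obtain ⟨ψ, hψ⟩ := hV.full i
    have hl := lvl_ab hU
    have hd' : (1 : ℤ) < (d i : ℤ) := by exact_mod_cast hd
    refine hi' (spl_of_big hψ ((pol_iff _).1 hU.polarisable) (wt_ab hU) (fun k => ?_) ?_ hb)
    · exact ⟨(hl k).1.trans hd'.le, (neg_le_neg hd'.le).trans (hl k).2⟩
    · exact apart_lvl (fullX_of hψ) hl hd'
  · obtain ⟨ψ, hψ⟩ := hV.full i
    exact hi (spl_of_level hψ hU)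
  · obtain ⟨ψ, hψ⟩ := hV.full i
    exact hi (spl_of_size hψ hU)
  · obtain ⟨ψ, hψ⟩ := hV.full i
    exact hi (spl_of_num hψ hU)

end Pool.Agent.U233.HG.St
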