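import Pool.Agent.U233.AH.Dec
import Pool.Agent.U233.PW.HTow

/-!
# The Hodge classes on products with powers
-/

set_option autoImplicit false
set_option linter.unusedSectionVars false

open CategoryTheory AlgebraicGeometry TensorProduct

universe u

namespace Pool.Agent.U233.AH

open Module Pool.Agent.N179 Pool.Agent.N179.DB Pool.Agent.N179.GR.S
open Pool.Agent.N179.GR (Der InDer SemiS algR full Spl slice_mem inv_le tate_step tate_snd)
open Pool.Agent.N179.DB.S (Cx tens gal bc cx_ind tens_add tens_smul smul_tens exists_tens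
  inF_tens bx_apply bc_tens bc_gal gal_add gal_tens galB gal_mul gr' gr'_eq gal_gr' mem_of_base
  span_alg algS algT base_mul)
open Pool.Agent.H914 Pool.Agent.H914.VarClass Pool.Agent.H914.VarClass.Obj
  Pool.Agent.H914.WeilCohomology Pool.Agent.TH125.Gal Pool.Agent.W552 Pool.Agent.H281R3.HT
open Pool.Agent.U233.HG.St (Theory coho prd)
open Pool.Agent.Y133.Per (Base baseMap baseTr tm base_ind baseTr_tm)
open Pool.Agent.U233.TF (TransF kill_pow tate_pow)
open Pool.Agent.U233.PW Pool.Agent.U233.HG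

noncomputable section

variable {k : Type u} [Field k] {𝒱 : VarClass k} {ops : CycleOps 𝒱} (T : Theory ops)

/-- the classes of the algebraic cycles of codimension `j` -/
def cy (X : 𝒱.Obj) (j : ℕ) : Set (T.W.H X) := {c | ∃ z, X.IsCyc j z ∧ T.W.cl X z = c}

/-- the Hodge classes of degree `2 j` -/
def hd (X : 𝒱.Obj) (j : ℕ) : Set (T.W.H X) := {c | IsHodge T X j c}

/-- the products of classes on the factors -/
def prods {P Y : 𝒱.Obj} (A : ℕ → Set (T.W.H P)) (B : ℕ → Set (T.W.H Y)) (j : ℕ) :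
    Set (T.W.H (P.prod Y)) :=
  {x | ∃ i j' : ℕ, i + j' = j ∧ ∃ a ∈ A i, ∃ b ∈ B j',
    x = T.W.map (fst P Y) a * T.W.map (snd P Y) b}

/-- the Künneth formula for the Hodge classes, with degrees -/
def GKun {P Y : 𝒱.Obj} (A : ℕ → Set (T.W.H P)) (B : ℕ → Set (T.W.H Y)) : Prop :=
  ∀ j, ∀ c ∈ hd T (P.prod Y) j, c ∈ Submodule.span T.W.K (prods T A B j)

theorem prods_base {P Y : 𝒱.Obj} {A : ℕ → Set (T.W.H P)} {B : ℕ → Set (T.W.H Y)} {j i j' : ℕ}
    (h : i + j' = j) {a : Base T.W.K (T.W.H P)} {b : Base T.W.K (T.W.H Y)}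
    (ha : a ∈ Submodule.span ℂ {x : Base T.W.K (T.W.H P) | ∃ c ∈ A i, x = tm 1 c})
    (hb : b ∈ Submodule.span ℂ {x : Base T.W.K (T.W.H Y) | ∃ c ∈ B j', x = tm 1 c}) :
    baseMap (T.W.map (fst P Y)) a * baseMap (T.W.map (snd P Y)) b ∈
      Submodule.span ℂ {x : Base T.W.K (T.W.H (P.prod Y)) |
        ∃ s ∈ Submodule.span T.W.K (prods T A B j), x = tm 1 s} := by
  have h1 := base_mul (T.W.map (fst P Y)) (T.W.map (snd P Y)) (A i) (B j') ha hb
  refine (Submodule.span_mono ?_) h1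
  rintro _ ⟨s, hs, rfl⟩
  refine ⟨s, (Submodule.span_mono ?_) hs, rfl⟩
  rintro _ ⟨a, ha, b, hb, rfl⟩
  exact ⟨i, j', h, a, ha, b, hb, rfl⟩

/-- **The Hodge classes on products with powers.** -/
theorem gkun_pow {V : HS T.W.K} (hV : Fulls T V) {X : 𝒱.Obj} {n : ℕ} (hX : ModelH T V X)
    (hn : Even X.dim → n + 1 < V.dim) {Y : 𝒱.Obj}
    (hspl : Spl (fl (repW T V)) {AR (var T Y)}) :
    GKun T (P := pw X n) (Y := Y) (cy T (pw X n)) (hd T Y) := by
  have hcl : IsAlgClosed (baseW T.W ℂ).K := inferInstanceAs (IsAlgClosed ℂ)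
  obtain ⟨ψ, μ, hψ⟩ := hV
  obtain ⟨f, hf⟩ := model_trans T hX hψ
  have hK : Even X.dim → n + 1 < finrank (baseW T.W ℂ).K (transcendental (baseW T.W ℂ) X) := by
    intro he
    have h6 := hn he
    have h7 : V.dim = Module.finrank (baseW T.W ℂ).K (transcendental (baseW T.W ℂ) X) := by
      rw [← dim_coh T V]
      exact trans_dim hf
    rw [h7] at h6
    exact h6
  have key : GKun T (P := (nest ops n fun _ => (⟨X, 0⟩ : Polarized 𝒱)).X) (Y := Y)
      (cy T _) (hd T Y) := by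
    intro j c hc
    have h0 : (tm 1 c : Base T.W.K (T.W.H _)) ∈ gr' T.W _ (2 * j) := by
      rw [gr'_eq]
      exact Submodule.subset_span ⟨c, hc.1, rfl⟩
    have h5 := pow_dec (χ := ch T) (P := ⟨X, 0⟩) hf (isPow T X n Y)
      (allSkewN (P := ⟨X, 0⟩) hf hψ hspl) hK (j := j)
      (c := (tm 1 c : Base T.W.K (T.W.H _)))
      ⟨h0, ⊤, inferInstance, fun g _ => hodge_tw T hc g⟩
    refine mem_of_base _ ?_
    have h6 : Submodule.span (baseW T.W ℂ).K {x : (baseW T.W ℂ).H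
          ((nest ops n fun _ => (⟨X, 0⟩ : Polarized 𝒱)).X.prod Y) | ∃ i j' : ℕ, i + j' = j ∧
        ∃ a ∈ Submodule.span (baseW T.W ℂ).K (algClasses (baseW T.W ℂ)
          (nest ops n fun _ => (⟨X, 0⟩ : Polarized 𝒱)).X i),
        ∃ z ∈ Tt (W := baseW T.W ℂ) (ch T) Y (var T Y).act j',
          x = (baseW T.W ℂ).map (fst _ Y) a * (baseW T.W ℂ).map (snd _ Y) z} ≤
      Submodule.span ℂ {x : Base T.W.K (T.W.H
        ((nest ops n fun _ => (⟨X, 0⟩ : Polarized 𝒱)).X.prod Y)) |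
        ∃ s ∈ Submodule.span T.W.K (prods T (cy T _) (hd T Y) j), x = tm 1 s} := by
      refine Submodule.span_le.2 ?_
      rintro _ ⟨i, j', hij, a, ha, z, ⟨hz, Δ, hΔ, hfix⟩, rfl⟩
      refine prods_base T hij ?_ ?_
      · refine (Submodule.span_mono ?_) ha
        rintro _ ⟨w, hw, rfl⟩
        exact ⟨T.W.cl _ w, ⟨w, hw, rfl⟩, rfl⟩
      · exact tw_hodge T hz hΔ hfix
    exact h6 h5
  have h6 : ∀ P : 𝒱.Obj, (nest ops n fun _ => (⟨X, 0⟩ : Polarized 𝒱)).X = P →
      GKun T (P := P) (Y := Y) (cy T P) (hd T Y) := by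
    rintro P rfl
    exact key
  exact h6 _ (nest_eq ops X n)

/-- the projection of products -/
theorem gkun_of {P Y : 𝒱.Obj} (h : HodgeKunneth T P Y) :
    GKun T (P := P) (Y := Y) (hd T P) (hd T Y) := by
  intro j c hc
  have h1 := h c ⟨j, hc⟩
  have h2 : Submodule.span T.W.K {x | ∃ a ∈ hodgeCl T P, ∃ b ∈ hodgeCl T Y,
      x = T.W.map (fst P Y) a * T.W.map (snd P Y) b} ≤
      (Submodule.span T.W.K (prods T (hd T P) (hd T Y) j)).comap
        (pj T (P.prod Y) (2 * j)) := by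
    refine Submodule.span_le.2 ?_
    rintro _ ⟨a, ⟨i, ha⟩, b, ⟨j', hb⟩, rfl⟩
    rw [SetLike.mem_coe, Submodule.mem_comap]
    have h3 : T.W.map (fst P Y) a * T.W.map (snd P Y) b ∈ T.W.gr (P.prod Y) (2 * (i + j')) := by
      rw [mul_add]
      exact T.W.mul_mem (T.W.map_mem _ ha.1) (T.W.map_mem _ hb.1)
    by_cases hij : i + j' = j
    · subst hij
      rw [show pj T (P.prod Y) (2 * (i + j')) (T.W.map (fst P Y) a * T.W.map (snd P Y) b) = _ from
        proj_same (T.W.isInternal _) h3]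
      exact Submodule.subset_span ⟨i, j', rfl, a, ha, b, hb, rfl⟩
    · have h4 : pj T (P.prod Y) (2 * j) (T.W.map (fst P Y) a * T.W.map (snd P Y) b) = 0 := by
        exact proj_ne (T.W.isInternal _) h3 (by omega)
      rw [h4]
      exact Submodule.zero_mem _
  have h3 := h2 h1
  rw [Submodule.mem_comap, show pj T (P.prod Y) (2 * j) c = c from
    proj_same (T.W.isInternal _) hc.1] at h3
  exact h3

end

end Pool.Agent.U233.AH
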