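import Pool.Agent.U233.AH.Cmp

/-!
# The classes which become Hodge for the second embedding
-/

set_option autoImplicit false
set_option linter.unusedSectionVars false

open CategoryTheory AlgebraicGeometry TensorProduct

universe u

namespace Pool.Agent.U233.AH

open Module Pool.Agent.N179 Pool.Agent.N179.DB Pool.Agent.N179.GR.S
open Pool.Agent.H914 Pool.Agent.H914.VarClass Pool.Agent.H914.VarClass.Obj
  Pool.Agent.H914.WeilCohomology Pool.Agent.TH125.Gal Pool.Agent.W552 Pool.Agent.H281R3.HT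
open Pool.Agent.U233.HG.St (Theory coho prd cohF Etale)
open Pool.Agent.U233.PW Pool.Agent.U233.HG

noncomputable section

variable {k : Type u} [Field k] {𝒱 : VarClass k} {ops : CycleOps 𝒱} {T T' : Theory ops}

section rat

variable {K A B L : Type} [Field K] [CharZero K] [Ring A] [Algebra K A] [Ring B] [Field L]
  [CharZero L] [Algebra L B]

/-- rational scalars -/
theorem ringHom_smul (f : A →+* B) (q : ℚ) (x : A) : f ((q : K) • x) = (q : L) • f x := by
  have h1 : (f.comp ((algebraMap K A).comp (algebraMap ℚ K))) =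
      (algebraMap L B).comp (algebraMap ℚ L) := Subsingleton.elim _ _
  have h2 : f (algebraMap K A (q : K)) = algebraMap L B (q : L) := by
    have h3 := congrArg (fun g : ℚ →+* B => g q) h1
    simpa using h3
  rw [Algebra.smul_def, map_mul, h2, ← Algebra.smul_def]

end rat

variable (κ : Etale T T')

attribute [local instance] Etale.char

/-- the comparison homomorphisms -/
def ki (X : 𝒱.Obj) : T.W.H X →+* (κ.B X).A := κ.i X

/-- the comparison homomorphisms -/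
def ki' (X : 𝒱.Obj) : T'.W.H X →+* (κ.B X).A := κ.i' X

/-- the pull-backs -/
def km {X Y : 𝒱.Obj} (f : X ⟶ Y) : (κ.B Y).A →ₐ[κ.L] (κ.B X).A := κ.map f

theorem k_nat {X Y : 𝒱.Obj} (f : X ⟶ Y) (a : T.W.H Y) :
    ki κ X (T.W.map f a) = km κ f (ki κ Y a) := κ.nat X Y f a

theorem k_nat' {X Y : 𝒱.Obj} (f : X ⟶ Y) (a : T'.W.H Y) :
    ki' κ X (T'.W.map f a) = km κ f (ki' κ Y a) := κ.nat' X Y f a

theorem k_spans (X : 𝒱.Obj) : Submodule.span κ.L (Set.range (ki' κ X)) = ⊤ := (κ.ext' X).1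

theorem k_indep (X : 𝒱.Obj) (n : ℕ) (x : Fin n → T'.W.H X) (h : LinearIndependent T'.W.K x) :
    LinearIndependent κ.L fun a => ki' κ X (x a) := (κ.ext' X).2 n x h

theorem k_cyc (X : 𝒱.Obj) (j : ℕ) (z : X.Cycles) (hz : X.IsCyc j z) :
    ki κ X (T.W.cl X z) = κ.u ^ j • ki' κ X (T'.W.cl X z) := κ.cyc X j z hz

theorem charW (T : Theory ops) : CharZero T.W.K := charK T.W.K

theorem i_smul (X : 𝒱.Obj) (q : ℚ) (x : T.W.H X) :
    ki κ X ((q : T.W.K) • x) = (q : κ.L) • ki κ X x := by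
  have h1 := charW T
  exact ringHom_smul (K := T.W.K) (A := T.W.H X) (ki κ X) q x

theorem i'_smul (X : 𝒱.Obj) (q : ℚ) (x : T'.W.H X) :
    ki' κ X ((q : T'.W.K) • x) = (q : κ.L) • ki' κ X x := by
  have h1 := charW T'
  exact ringHom_smul (K := T'.W.K) (A := T'.W.H X) (ki' κ X) q x

/-- the classes which become Hodge for the second embedding -/
def Gd (X : 𝒱.Obj) (j : ℕ) : Set (T.W.H X) :=
  {c | ∃ c' ∈ hd T' X j, ki κ X c = κ.u ^ j • ki' κ X c'}

theorem gd_zero (X : 𝒱.Obj) (j : ℕ) : (0 : T.W.H X) ∈ Gd κ X j := by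
  refine ⟨0, (hdS T' X j).zero_mem, ?_⟩
  have h1 : ki κ X (0 : T.W.H X) = 0 := map_zero (ki κ X)
  have h2 : ki' κ X (0 : T'.W.H X) = 0 := map_zero (ki' κ X)
  rw [h1, h2, smul_zero]

theorem gd_add {X : 𝒱.Obj} {j : ℕ} {a b : T.W.H X} (ha : a ∈ Gd κ X j) (hb : b ∈ Gd κ X j) :
    a + b ∈ Gd κ X j := by
  obtain ⟨a', ha', h1⟩ := ha
  obtain ⟨b', hb', h2⟩ := hb
  refine ⟨a' + b', (hdS T' X j).add_mem ha' hb', ?_⟩
  have h3 : ki κ X (a + b) = ki κ X a + ki κ X b := map_add (ki κ X) a b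
  have h4 : ki' κ X (a' + b') = ki' κ X a' + ki' κ X b' := map_add (ki' κ X) a' b'
  rw [h3, h4, h1, h2, smul_add]

theorem gd_smul {X : 𝒱.Obj} {j : ℕ} {a : T.W.H X} (r : T.W.K) (ha : a ∈ Gd κ X j) :
    r • a ∈ Gd κ X j := by
  obtain ⟨q, rfl⟩ := T.rat r
  obtain ⟨a', ha', h1⟩ := ha
  refine ⟨(q : T'.W.K) • a', (hdS T' X j).smul_mem _ ha', ?_⟩
  rw [i_smul, i'_smul, h1, smul_comm]

theorem gd_span {X : 𝒱.Obj} {j : ℕ} {c : T.W.H X}
    (hc : c ∈ Submodule.span T.W.K (Gd κ X j)) : c ∈ Gd κ X j := by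
  induction hc using Submodule.span_induction with
  | mem c hc => exact hc
  | zero => exact gd_zero κ X j
  | add a b _ _ ha hb => exact gd_add κ ha hb
  | smul r a _ ha => exact gd_smul κ r ha

theorem gd_mul (P Y : 𝒱.Obj) (i j : ℕ) {a : T.W.H P} (ha : a ∈ Gd κ P i) {b : T.W.H Y}
    (hb : b ∈ Gd κ Y j) :
    T.W.map (fst P Y) a * T.W.map (snd P Y) b ∈ Gd κ (P.prod Y) (i + j) := by
  obtain ⟨a', ha', h1⟩ := ha
  obtain ⟨b', hb', h2⟩ := hb
  refine ⟨T'.W.map (fst P Y) a' * T'.W.map (snd P Y) b',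
    hd_mul T' (hd_map _ ha') (hd_map _ hb'), ?_⟩
  have h3 : ki κ (P.prod Y) (T.W.map (fst P Y) a * T.W.map (snd P Y) b) =
      ki κ _ (T.W.map (fst P Y) a) * ki κ _ (T.W.map (snd P Y) b) := map_mul (ki κ (P.prod Y)) _ _
  have h4 : ki' κ (P.prod Y) (T'.W.map (fst P Y) a' * T'.W.map (snd P Y) b') =
      ki' κ _ (T'.W.map (fst P Y) a') * ki' κ _ (T'.W.map (snd P Y) b') :=
    map_mul (ki' κ (P.prod Y)) _ _
  rw [h3, h4, k_nat, k_nat, k_nat', k_nat', h1, h2, map_smul, map_smul, smul_mul_smul_comm,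
    pow_add]

/-! ### the converse -/

/-- the coordinates -/
theorem exists_coord {Y : 𝒱.Obj} {n : ℕ} (b : Basis (Fin n) T'.W.K (T'.W.H Y)) (y : (κ.B Y).A) :
    ∃ l : Fin n → κ.L, y = ∑ a, l a • ki' κ Y (b a) := by
  have h1 : y ∈ Submodule.span κ.L (Set.range (ki' κ Y)) := by
    rw [k_spans]
    trivial
  have h2 : Submodule.span κ.L (Set.range (ki' κ Y)) ≤
      Submodule.span κ.L (Set.range fun a => ki' κ Y (b a)) := by
    refine Submodule.span_le.2 ?_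
    rintro _ ⟨x, rfl⟩
    have h3 : x = ∑ a, b.repr x a • b a := (b.sum_repr x).symm
    have h4 : ki' κ Y x = ∑ a, ki' κ Y (b.repr x a • b a : T'.W.H Y) := by
      conv_lhs => rw [h3]
      exact map_sum (ki' κ Y) _ _
    rw [SetLike.mem_coe, h4]
    refine Submodule.sum_mem _ fun a _ => ?_
    obtain ⟨q, hq⟩ := T'.rat (b.repr x a)
    rw [← hq, i'_smul]
    exact Submodule.smul_mem _ _ (Submodule.subset_span ⟨a, rfl⟩)
  obtain ⟨l, hl⟩ := (Submodule.mem_span_range_iff_exists_fun κ.L).1 (h2 h1)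
  exact ⟨l, hl.symm⟩

theorem map_sum' {X Y : 𝒱.Obj} (f : X ⟶ Y) {n : ℕ} (l : Fin n → κ.L) (b : Fin n → T'.W.H Y) :
    km κ f (∑ a, l a • ki' κ Y (b a)) = ∑ a, l a • ki' κ X (T'.W.map f (b a)) := by
  rw [map_sum]
  refine Finset.sum_congr rfl fun a _ => ?_
  rw [map_smul, k_nat']

theorem kmap_inj {X Y : 𝒱.Obj} {f : X ⟶ Y} (hf : Function.Injective (T'.W.map f)) :
    Function.Injective (km κ f) := by
  rw [injective_iff_map_eq_zero]
  intro y hy
  let b := Module.finBasis T'.W.K (T'.W.H Y)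
  obtain ⟨l, rfl⟩ := exists_coord κ b y
  rw [map_sum'] at hy
  have h1 : LinearIndependent T'.W.K fun a => T'.W.map f (b a) :=
    b.linearIndependent.map' (T'.W.map f).toLinearMap (LinearMap.ker_eq_bot.2 hf)
  have h2 := Fintype.linearIndependent_iff.1 (k_indep κ X _ _ h1) l hy
  exact Finset.sum_eq_zero fun a _ => by rw [h2, zero_smul]

theorem range_of {X Y : 𝒱.Obj} {f : X ⟶ Y} (hf : Function.Injective (T'.W.map f)) {y : (κ.B Y).A}
    {c : T'.W.H X} {s : κ.L} (hs : s ≠ 0) (h : km κ f y = s • ki' κ X c) :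
    ∃ c', T'.W.map f c' = c := by
  let b := Module.finBasis T'.W.K (T'.W.H Y)
  obtain ⟨l, rfl⟩ := exists_coord κ b y
  rw [map_sum'] at h
  by_contra hcon
  push Not at hcon
  have h1 : LinearIndependent T'.W.K fun a => T'.W.map f (b a) :=
    b.linearIndependent.map' (T'.W.map f).toLinearMap (LinearMap.ker_eq_bot.2 hf)
  have h2 : LinearIndependent T'.W.K (Fin.cons c fun a => T'.W.map f (b a)) := by
    refine linearIndependent_finCons.2 ⟨h1, fun h3 => ?_⟩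
    have h4 : Submodule.span T'.W.K (Set.range fun a => T'.W.map f (b a)) ≤
        LinearMap.range (T'.W.map f).toLinearMap := by
      refine Submodule.span_le.2 ?_
      rintro _ ⟨a, rfl⟩
      exact ⟨b a, rfl⟩
    obtain ⟨c', hc'⟩ := h4 h3
    exact hcon c' hc'
  have h3 := Fintype.linearIndependent_iff.1 (k_indep κ X _ _ h2) (Fin.cons (-s) l) (by
    rw [Fin.sum_univ_succ]
    simp only [Fin.cons_zero, Fin.cons_succ]
    rw [h, neg_smul, neg_add_cancel])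
  have h4 := h3 0
  rw [Fin.cons_zero, neg_eq_zero] at h4
  exact hs h4

theorem gd_of_map {X Y : 𝒱.Obj} {f : X ⟶ Y} (hf : Function.Injective (T'.W.map f))
    (hf' : Function.Injective ((baseW T'.W ℂ).map f)) {j : ℕ} {a : T.W.H Y}
    (h : T.W.map f a ∈ Gd κ X j) : a ∈ Gd κ Y j := by
  obtain ⟨c, hc, h1⟩ := h
  rw [k_nat] at h1
  obtain ⟨c', rfl⟩ := range_of κ hf (pow_ne_zero j κ.ne) h1
  refine ⟨c', hd_of_map T' hf hf' hc, kmap_inj κ hf ?_⟩
  rw [h1, map_smul, k_nat']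

theorem one_ne (T : Theory ops) (X : 𝒱.Obj) : (1 : T.W.H X) ≠ 0 := by
  intro h
  obtain ⟨c, -, hc⟩ := T.point X
  apply hc
  have h1 : c = 0 := by rw [← one_mul c, h, zero_mul]
  rw [h1, map_zero]

theorem one_neB (T : Theory ops) (X : 𝒱.Obj) : (1 : (baseW T.W ℂ).H X) ≠ 0 := by
  intro h
  have h1 := point_of T X
  obtain ⟨c, -, hc⟩ := h1
  have h2 : ∀ c : (baseW T.W ℂ).H X, c = 0 := fun c => by rw [← one_mul c, h, zero_mul]
  exact hc ((congrArg _ (h2 c)).trans (map_zero _))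

theorem closed_gd : Closed T (Gd κ) where
  cy X j := by
    rintro c ⟨z, hz, rfl⟩
    exact ⟨T'.W.cl X z, cy_hd T' ⟨z, hz, rfl⟩, k_cyc κ X j z hz⟩
  span X j c hc := gd_span κ hc
  mul P Y i j a ha b hb := gd_mul κ P Y i j ha hb
  fst P Y j a _ h := gd_of_map κ (fst_inj (one_ne T' Y)) (fst_inj (one_neB T' Y)) h
  snd P Y j a _ h := gd_of_map κ (snd_inj (one_ne T' P)) (snd_inj (one_neB T' P)) h

theorem deligne_iff (X : 𝒱.Obj) : κ.Deligne X ↔ AllIn T (Gd κ) X := by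
  constructor
  · intro h j c hc
    obtain ⟨c', hc', h1⟩ := h j (ki κ X c) ⟨c, hc, rfl⟩
    exact ⟨c', hc', h1⟩
  · rintro h j _ ⟨c, hc, rfl⟩
    obtain ⟨c', hc', h1⟩ := h j hc
    exact ⟨c', hc', h1⟩

end

end Pool.Agent.U233.AH
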